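import Mathlib
import Pool.Agent.Y674.HY.Stm

set_option autoImplicit false

/-!
# Project HY, task HY-EST: square roots near `u`, signs and residues modulo `4`

Job 6797 (poster helper674).
-/

namespace Pool.Agent.Y43.HY

open Pool.Agent.Y674.HY

/-- sums of signs modulo four -/
lemma sum_mod (R : Finset ℂ) (e : ℂ → ℤ) (he : ∀ r ∈ R, e r = 1 ∨ e r = -1) :
    (∏ r ∈ R, e r = 1 ∨ ∏ r ∈ R, e r = -1) ∧
      ∑ r ∈ R, e r ≡ R.card - 1 + ∏ r ∈ R, e r [ZMOD 4] := by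
  classical
  induction R using Finset.induction_on with
  | empty => simp
  | insert a s ha ih =>
    obtain ⟨hp, hs⟩ := ih (fun r hr => he r (Finset.mem_insert_of_mem hr))
    rw [Finset.prod_insert ha, Finset.sum_insert ha, Finset.card_insert_of_notMem ha]
    obtain ⟨p, hpe⟩ : ∃ p, p = ∏ r ∈ s, e r := ⟨_, rfl⟩
    obtain ⟨t, ht⟩ : ∃ t, t = ∑ r ∈ s, e r := ⟨_, rfl⟩
    rw [← hpe] at hp hs ⊢
    rw [← ht] at hs ⊢
    rw [Int.modEq_iff_dvd] at hs ⊢
    push_cast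
    rcases he a (Finset.mem_insert_self a s) with h | h <;> rw [h] <;>
      rcases hp with h' | h' <;> rw [h'] at hs ⊢ <;> refine ⟨by norm_num, ?_⟩ <;> omega

/-- the square root near `u` -/
lemma sq_near (u B : ℝ) (hu : 0 < u) (hBu : B < u ^ 2) (z : ℂ) (hz : ‖z‖ ≤ B) :
    ∃ θ : ℂ, θ ^ 2 = (u : ℂ) ^ 2 - z ∧ ‖θ - u‖ ≤ B / u ∧ θ ≠ 0 := by
  have key : ∃ θ : ℂ, θ ^ 2 = (u : ℂ) ^ 2 - z ∧ 0 ≤ θ.re := by
    obtain ⟨θ, hθ⟩ := IsAlgClosed.exists_pow_nat_eq ((u : ℂ) ^ 2 - z) two_pos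
    rcases le_total 0 θ.re with h | h
    · exact ⟨θ, hθ, h⟩
    · exact ⟨-θ, by rw [neg_sq, hθ], by rw [Complex.neg_re]; linarith⟩
  obtain ⟨θ, hθ, hre⟩ := key
  refine ⟨θ, hθ, ?_, ?_⟩
  · rw [le_div_iff₀ hu]
    have h1 : (θ - u) * (θ + u) = -z := by linear_combination hθ
    have h2 : ‖θ - u‖ * ‖θ + u‖ = ‖z‖ := by rw [← norm_mul, h1, norm_neg]
    have h3 : u ≤ ‖θ + u‖ := by
      have := Complex.abs_re_le_norm (θ + u)
      rw [Complex.add_re, Complex.ofReal_re] at this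
      have h4 := le_abs_self (θ.re + u)
      linarith
    calc ‖θ - u‖ * u ≤ ‖θ - u‖ * ‖θ + u‖ := mul_le_mul_of_nonneg_left h3 (norm_nonneg _)
      _ = ‖z‖ := h2
      _ ≤ B := hz
  · rintro rfl
    have h1 : z = (u : ℂ) ^ 2 := by linear_combination hθ
    rw [h1, norm_pow, Complex.norm_real, Real.norm_eq_abs, sq_abs] at hz
    linarith

theorem est : EST := by
  classical
  intro R u B hu hB hBu hodd I g b hb hg hprod
  have hs : ∀ r ∈ R, ∃ θ : ℂ, θ ^ 2 = (u : ℂ) ^ 2 - b r ∧ ‖θ - u‖ ≤ B / u ∧ θ ≠ 0 :=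
    fun r hr => sq_near u B hu hBu (b r) (hb r hr)
  choose! θ h1 h2 h3 using hs
  let e : I → ℂ → ℤ := fun i r => if g i r = θ r then 1 else -1
  have he : ∀ i r, e i r = 1 ∨ e i r = -1 := by
    intro i r
    simp only [e]
    split_ifs
    · exact Or.inl rfl
    · exact Or.inr rfl
  have hge : ∀ i, ∀ r ∈ R, g i r = (e i r : ℂ) * θ r := by
    intro i r hr
    simp only [e]
    split_ifs with h
    · rw [h]
      push_cast
      ring
    · have h4 : (g i r - θ r) * (g i r + θ r) = 0 := by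
        linear_combination hg i r hr - h1 r hr
      rcases mul_eq_zero.1 h4 with h5 | h5
      · exact absurd (sub_eq_zero.1 h5) h
      · push_cast
        linear_combination h5
  have hpe : ∀ i j, ∏ r ∈ R, e i r = ∏ r ∈ R, e j r := by
    intro i j
    have hp : ∀ i, ∏ r ∈ R, g i r = ((∏ r ∈ R, e i r : ℤ) : ℂ) * ∏ r ∈ R, θ r := by
      intro i
      rw [Int.cast_prod, ← Finset.prod_mul_distrib]
      exact Finset.prod_congr rfl (hge i)
    have h4 := hprod i j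
    rw [hp i, hp j] at h4
    have h5 : ∏ r ∈ R, θ r ≠ 0 := Finset.prod_ne_zero_iff.2 h3
    exact_mod_cast mul_right_cancel₀ h5 h4
  refine ⟨fun i => ∑ r ∈ R, e i r, ⟨?_, ?_, ?_⟩, ?_⟩
  · intro i
    calc |∑ r ∈ R, e i r| ≤ ∑ r ∈ R, |e i r| := Finset.abs_sum_le_sum_abs _ _
      _ = ∑ r ∈ R, (1 : ℤ) := by
        apply Finset.sum_congr rfl
        intro r _
        rcases he i r with h | h <;> rw [h] <;> norm_num
      _ = (R.card : ℤ) := by simp
  · intro i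
    obtain ⟨hp, hm⟩ := sum_mod R (e i) (fun r _ => he i r)
    rw [Int.modEq_iff_dvd] at hm
    obtain ⟨m, hm'⟩ := hodd
    show Odd (∑ r ∈ R, e i r)
    rw [Int.odd_iff]
    obtain ⟨t, ht⟩ : ∃ t, t = ∑ r ∈ R, e i r := ⟨_, rfl⟩
    rw [← ht] at hm ⊢
    have hm'' : (R.card : ℤ) = 2 * m + 1 := by rw [hm']; push_cast; ring
    rw [hm''] at hm
    rcases hp with h | h <;> rw [h] at hm <;> omega
  · intro i j
    obtain ⟨-, hi⟩ := sum_mod R (e i) (fun r _ => he i r)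
    obtain ⟨-, hj⟩ := sum_mod R (e j) (fun r _ => he j r)
    rw [hpe i j] at hi
    exact hi.trans hj.symm
  · intro i
    have h4 : ∑ r ∈ R, g i r - ((∑ r ∈ R, e i r : ℤ) : ℂ) * (u : ℂ) =
        ∑ r ∈ R, (e i r : ℂ) * (θ r - u) := by
      rw [Int.cast_sum, Finset.sum_mul, ← Finset.sum_sub_distrib]
      apply Finset.sum_congr rfl
      intro r hr
      rw [hge i r hr]
      ring
    simp only
    rw [h4]
    calc ‖∑ r ∈ R, (e i r : ℂ) * (θ r - u)‖ ≤ ∑ r ∈ R, ‖(e i r : ℂ) * (θ r - u)‖ := norm_sum_le _ _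
      _ ≤ ∑ r ∈ R, (B / u) := by
        apply Finset.sum_le_sum
        intro r hr
        rw [norm_mul]
        have h5 : ‖(e i r : ℂ)‖ = 1 := by
          rcases he i r with h | h <;> rw [h] <;> simp
        rw [h5, one_mul]
        exact h2 r hr
      _ = R.card * (B / u) := by rw [Finset.sum_const, nsmul_eq_mul]

end Pool.Agent.Y43.HY
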